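import Pool.Agent.N931.PN.Stm5
import Pool.Agent.N196.EW.Inw

/-!
# Project PN (helper931), part INWB: the inward inequality, sum over the block

By helper374; adapted from `Pool/Agent/N196/EW/Inw.lean` (helper196).
-/

set_option autoImplicit false
set_option maxHeartbeats 2000000

namespace Pool.Agent.N374.PN.INWB

open H974 H12S H973N Finset Pool.Agent.W424.NC TH291.NW

/-- The inward inequality at all scales of the window. -/
theorem inward_scaleB {κ b c C : ℝ} (hκ : 0 < κ) (hb : 0 < b) (hc : 0 < c) (hN : NearP b c C)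
    (hWn : ∀ n : ℕ, 1 ≤ n → ∀ q : ℝ, |q - 1/2| ≤ b * (n:ℝ) ^ (-(3/4 : ℝ)) → Win q κ n)
    {δ : ℝ} (hδ : 0 < δ) : ∃ (B Mr : ℕ) (Ci : ℝ), 2 ≤ B ∧ 1 ≤ Mr ∧ 0 < Ci ∧
      ∀ n : ℕ, 1 ≤ n → ∀ q : ℝ, |q - 1/2| ≤ b * (n:ℝ) ^ (-(3/4 : ℝ)) →
      ∀ r : ℕ, Mr ≤ r → B * r ≤ n → ∀ (S : Finset Edg) (I J I' J' : Set Vtx) (p : ℤ × ℤ),
        blk p (4 * (B * r)) ⊆ S → DomD S I J I' J' → FarS (I ∪ J) p (4 * (B * r)) →
        FarS (I' ∪ J') p (4 * (B * r)) →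
        (PQ q S (fun F => BPv I J (blk p (B * r - 1)) ↑F) - δ) * (r:ℝ) ^ (3/4 : ℝ) ≤
          Ci * ∑ e ∈ blk p (B * r), PQ q S (fun F => Pv I J e ↑F) := by
  have hcC := c_le_C hb hN
  have hC : 0 < C := by linarith
  obtain ⟨lg, hlg⟩ : ∃ lg : ℝ, lg = Real.log (C / c) := ⟨_, rfl⟩
  have hCc1 : 1 ≤ C / c := by rw [le_div_iff₀ hc]; linarith
  have hlg0 : 0 ≤ lg := by rw [hlg]; exact Real.log_nonneg hCc1
  obtain ⟨t, M20, ht, hin⟩ := inward_closedG κ hκ δ hδ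
  obtain ⟨L, M1, M2, C1, hL, hM1, hM2, hM20, hC1, hkey⟩ :=
    key_scale exit3 κ hκ (5/4 + lg) (by linarith) M20
  obtain ⟨C1', hC1'⟩ : ∃ C1' : ℝ, C1' = max C1 ((192 * (L:ℝ)) ^ (5/4 + lg)) := ⟨_, rfl⟩
  have hC1'0 : 0 < C1' := by rw [hC1']; exact lt_of_lt_of_le hC1 (le_max_left _ _)
  obtain ⟨Mr, Cin, hMr, hCin, hin⟩ := hin L M1 M2 hL hM1 hM2 hM20 C1' hC1'0
  have hLr : (2:ℝ) ≤ L := by exact_mod_cast hL
  have hL0 : (0:ℝ) < L := by linarith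
  obtain ⟨B, hB⟩ : ∃ B : ℕ, B = 256 * t * L * M2 := ⟨_, rfl⟩
  have hBpos : 2 ≤ B := by
    have h1 : 0 < t * L * M2 := by
      have : 0 < t := ht
      have : 0 < L := by omega
      have : 0 < M2 := by omega
      positivity
    have h2 : B = 256 * (t * L * M2) := by rw [hB]; ring
    omega
  refine ⟨B, Mr, Cin / (c * (4 * (L:ℝ)) ^ (-(5/4 : ℝ))), hBpos, hMr, by positivity, ?_⟩
  intro n hn q hq r hr hrn S I J I' J' p m1 m2 m3 m4
  have hW := hWn n hn q hq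
  have h0 : 0 ≤ q := by linarith [hW.lo]
  have h1 : q ≤ 1 := by linarith [hW.hi]
  have hr1 : 1 ≤ r := hMr.trans hr
  obtain ⟨s, hs⟩ : ∃ s : ℕ, s = B * r := ⟨_, rfl⟩
  rw [← hs] at hrn m1 m3 m4 ⊢
  have hs2 : s = 256 * t * L * (M2 * r) := by rw [hs, hB]; ring
  have h4 : 4 * L * (M2 * r) ≤ n := by
    refine le_trans ?_ hrn
    rw [hs2]
    apply Nat.mul_le_mul_right
    apply Nat.mul_le_mul_right
    omega
  have hM2r1 : 8 ≤ M2 * r := by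
    calc 8 = 8 * 1 := rfl
      _ ≤ M2 * r := Nat.mul_le_mul (by omega) hr1
  have hk41 : 1 ≤ 4 * L * (M2 * r) := by
    have : 0 < 4 * L * (M2 * r) := Nat.mul_pos (by omega) (by omega)
    exact this
  have hM2n : M2 * r ≤ n := by
    refine le_trans ?_ h4
    exact Nat.le_mul_of_pos_left _ (by omega)
  -- regularity
  have hreg : a4 q ((M2 * r) / 8) ≤ (192 * (L:ℝ)) ^ (5/4 + lg) * a4 q (4 * L * (M2 * r)) := by
    have i1 := (hN n hn q hq ((M2 * r) / 8) (by omega) (by omega)).2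
    have i2 := (hN n hn q hq (4 * L * (M2 * r)) hk41 h4).1
    have k1pos : (0:ℝ) < ((M2 * r / 8 : ℕ) : ℝ) := by
      have : 0 < M2 * r / 8 := by omega
      exact_mod_cast this
    have k2pos : (0:ℝ) < ((4 * L * (M2 * r) : ℕ) : ℝ) := by exact_mod_cast hk41
    have i3 := pow_scale (x := ((M2 * r / 8 : ℕ) : ℝ)) (y := ((4 * L * (M2 * r) : ℕ) : ℝ))
      (G := 64 * L) k1pos k2pos (by positivity) (by
        have i4 : M2 * r ≤ 16 * (M2 * r / 8) := by omega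
        have i5 : 4 * L * (M2 * r) ≤ 4 * L * (16 * (M2 * r / 8)) := Nat.mul_le_mul_left _ i4
        have i6 : ((4 * L * (M2 * r) : ℕ) : ℝ) ≤ ((4 * L * (16 * (M2 * r / 8)) : ℕ) : ℝ) := by
          exact_mod_cast i5
        refine i6.trans (le_of_eq ?_)
        push_cast; ring)
    have hp2 : 0 < ((4 * L * (M2 * r) : ℕ) : ℝ) ^ (-(5/4 : ℝ)) := by positivity
    have i7 : C / c * (64 * (L:ℝ)) ^ (5/4 : ℝ) ≤ (192 * (L:ℝ)) ^ (5/4 + lg) := by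
      rw [Real.rpow_add (by positivity), mul_comm]
      apply mul_le_mul _ _ (by positivity) (by positivity)
      · exact Real.rpow_le_rpow (by positivity) (by linarith) (by norm_num)
      · have e : C / c = Real.exp 1 ^ lg := by
          rw [← Real.exp_mul, one_mul, hlg, Real.exp_log (by positivity)]
        rw [e]
        apply Real.rpow_le_rpow (Real.exp_pos _).le _ hlg0
        have := Real.exp_one_lt_d9
        linarith
    calc a4 q ((M2 * r) / 8) ≤ C * ((M2 * r / 8 : ℕ) : ℝ) ^ (-(5/4 : ℝ)) := i1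
      _ ≤ C * ((64 * (L:ℝ)) ^ (5/4 : ℝ) * ((4 * L * (M2 * r) : ℕ) : ℝ) ^ (-(5/4 : ℝ))) :=
          mul_le_mul_of_nonneg_left i3 hC.le
      _ = (C / c * (64 * (L:ℝ)) ^ (5/4 : ℝ)) *
          (c * ((4 * L * (M2 * r) : ℕ) : ℝ) ^ (-(5/4 : ℝ))) := by field_simp
      _ ≤ (192 * (L:ℝ)) ^ (5/4 + lg) * (c * ((4 * L * (M2 * r) : ℕ) : ℝ) ^ (-(5/4 : ℝ))) :=
          mul_le_mul_of_nonneg_right i7 (by positivity)
      _ ≤ _ := mul_le_mul_of_nonneg_left i2 (by positivity)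
  have ha4 : 0 ≤ a4 q (4 * L * (M2 * r)) := a4_nonneg h0 h1 _
  obtain ⟨σ1, k1, σ2, k2, hk1, hk2, hTS⟩ := hkey q n hW r (M2 * r) hr1 rfl h4 hreg
  have hTS0 : 0 ≤ TS q L (M2 * r) r ((M2 * r) / M1) σ1 k1 σ2 k2 :=
    Finset.sum_nonneg fun _ _ => Pr_nonneg (okq h0 h1) _ _
  have hmain := hin q n hW r (M2 * r) s hr rfl hs2 hrn
    (hreg.trans (mul_le_mul_of_nonneg_right (by rw [hC1']; exact le_max_right _ _) ha4))
    σ1 σ2 k1 k2 hk1 hk2
    (hTS.trans (mul_le_mul_of_nonneg_right (by rw [hC1']; exact le_max_left _ _) hTS0))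
    S I J I' J' p m1 m2 m3 m4
  obtain ⟨P, hP⟩ : ∃ P : ℝ, P = PQ q S
    (fun F => BPv I J (blk p (s - 1)) ↑F) := ⟨_, rfl⟩
  obtain ⟨P3, hP3⟩ : ∃ P3 : ℝ, P3 = PQ q S
    (fun F => BPv I J (blk p (3 * s)) ↑F) := ⟨_, rfl⟩
  rw [← hP, ← hP3] at hmain
  rw [← hP]
  have hP31 : P3 ≤ 1 := by rw [hP3]; exact Pr_le_one (okq h0 h1) _ _
  obtain ⟨Y, hY⟩ : ∃ Y : ℝ, Y = ((M2 * r : ℕ) : ℝ) ^ 2 * a4 q (4 * L * (M2 * r)) := ⟨_, rfl⟩
  rw [← hY] at hmain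
  have hY0 : 0 ≤ Y := by rw [hY]; exact mul_nonneg (by positivity) ha4
  -- the sum over the block
  obtain ⟨Sg, hSg⟩ : ∃ Sg : ℝ, Sg = ∑ e ∈ blk p s, PQ q S
    (fun F => Pv I J e ↑F) := ⟨_, rfl⟩
  have hsum : ∑ e ∈ blk p s, PQ q S (fun F => Pv I J e ↑F) ≤
      Sg := hSg.ge
  have hSg0 : 0 ≤ Sg := by
    rw [hSg]
    exact Finset.sum_nonneg fun _ _ => Pr_nonneg (okq h0 h1) _ _
  have hfin : (P - δ) * Y ≤ Cin * Sg := by
    have e1 : (P - δ) * Y ≤ (P - δ * P3) * Y := by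
      apply mul_le_mul_of_nonneg_right _ hY0
      have := mul_le_mul_of_nonneg_left hP31 hδ.le
      linarith
    exact e1.trans (hmain.trans (mul_le_mul_of_nonneg_left hsum hCin.le))
  rw [← hSg]
  rcases le_or_gt P δ with hPδ | hPδ
  · have e1 : (P - δ) * (r:ℝ) ^ (3/4 : ℝ) ≤ 0 :=
      mul_nonpos_of_nonpos_of_nonneg (by linarith) (by positivity)
    exact e1.trans (by positivity)
  · -- the size of `Y`
    have hYlow : c * (4 * (L:ℝ)) ^ (-(5/4 : ℝ)) * (r:ℝ) ^ (3/4 : ℝ) ≤ Y := by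
      obtain ⟨m, hm⟩ : ∃ m : ℝ, m = ((M2 * r : ℕ) : ℝ) := ⟨_, rfl⟩
      have hmpos : 0 < m := by
        rw [hm]
        have : 0 < M2 * r := by omega
        exact_mod_cast this
      have hrm : (r:ℝ) ≤ m := by
        rw [hm]
        have : r ≤ M2 * r := Nat.le_mul_of_pos_left _ (by omega)
        exact_mod_cast this
      have i2 := (hN n hn q hq (4 * L * (M2 * r)) hk41 h4).1
      have i3 : ((4 * L * (M2 * r) : ℕ) : ℝ) = (4 * L) * m := by rw [hm]; push_cast; ring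
      rw [i3, Real.mul_rpow (by positivity) hmpos.le] at i2
      rw [hY, ← hm]
      calc c * (4 * (L:ℝ)) ^ (-(5/4 : ℝ)) * (r:ℝ) ^ (3/4 : ℝ)
          ≤ c * (4 * (L:ℝ)) ^ (-(5/4 : ℝ)) * m ^ (3/4 : ℝ) := by
            apply mul_le_mul_of_nonneg_left _ (by positivity)
            exact Real.rpow_le_rpow (Nat.cast_nonneg _) hrm (by norm_num)
        _ = m ^ 2 * (c * ((4 * (L:ℝ)) ^ (-(5/4 : ℝ)) * m ^ (-(5/4 : ℝ)))) := by
            rw [← m_sq hmpos]; ring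
        _ ≤ _ := mul_le_mul_of_nonneg_left i2 (by positivity)
    obtain ⟨v, hv⟩ : ∃ v : ℝ, v = c * (4 * (L:ℝ)) ^ (-(5/4 : ℝ)) := ⟨_, rfl⟩
    have hv0 : 0 < v := by rw [hv]; positivity
    rw [← hv] at hYlow ⊢
    have e2 : (P - δ) * (v * (r:ℝ) ^ (3/4 : ℝ)) ≤ Cin * Sg :=
      (mul_le_mul_of_nonneg_left hYlow (by linarith)).trans hfin
    rw [div_mul_eq_mul_div, le_div_iff₀ hv0]
    calc (P - δ) * (r:ℝ) ^ (3/4 : ℝ) * v = (P - δ) * (v * (r:ℝ) ^ (3/4 : ℝ)) := by ring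
      _ ≤ _ := e2


end Pool.Agent.N374.PN.INWB

namespace Pool.Agent.N374.PN.INWB

open H974 H12S H389NS H984N H984P H342P Finset
open Pool.Agent.N116.EW
open Pool.Agent.N931.PN

/-- The inward inequality at the critical point, sum over the block. -/
theorem main : S_INWB := by
  intro θ hθ
  obtain ⟨κ, b, c0, C0, hκ, hb, hc0, hC0, hnear⟩ := Pool.Agent.W424.NC.nearS
  have hN : Pool.Agent.W424.NC.NearP b c0 C0 := fun n hn q hq => (hnear n hn q hq).2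
  have hWn : ∀ n : ℕ, 1 ≤ n → ∀ q : ℝ, |q - 1/2| ≤ b * (n:ℝ) ^ (-(3/4 : ℝ)) →
      H12S.Win q κ n := fun n hn q hq => (hnear n hn q hq).1
  obtain ⟨B, Mr, Ci, hB, hMr, hCi, H⟩ := inward_scaleB hκ hb hc0 hN hWn hθ
  refine ⟨B, Mr, Ci, hB, hMr, hCi, ?_⟩
  intro r hr S I J I' J' p m1 m2 m3 m4
  have hn : 1 ≤ B * r := Nat.mul_pos (by omega) (by omega)
  refine H (B * r) hn (1 / 2) ?_ r hr le_rfl S I J I' J' p m1 m2 m3 m4
  rw [sub_self, abs_zero]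
  positivity

end Pool.Agent.N374.PN.INWB
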