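import Pool.Agent.N931.PN.Stm4

/-!
# Project PN (helper931), part SQA: equality of the limits

By helper374.
-/

set_option autoImplicit false

namespace Pool.Agent.N374.PN.SQA

open MeasureTheory Filter Topology
open Pool.Agent.N116.EW
open H342L (cdist Curve)
open Pool.Agent.N931.PN

section abs

variable {X : Type} [PseudoMetricSpace X] [MeasurableSpace X] [BorelSpace X]
  [SecondCountableTopology X]

theorem fwd (law : ℕ → ProbabilityMeasure X) (law2 : ℕ → ProbabilityMeasure (X × X))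
    (hfst : ∀ i, (law2 i : Measure (X × X)).map Prod.fst = law i) (Λ : ℕ → ℝ) (C : ℝ)
    (hP1 : ∀ᶠ i in atTop, ∀ r : ℝ, 0 < r → (law2 i : Measure (X × X)) {q | r < dist q.1 q.2} ≤
      ENNReal.ofReal (C * Λ i * r ^ (-(5 / 4) : ℝ)))
    (hΛ : Tendsto Λ atTop (𝓝 0)) (dg : X → X × X) (hdg : ∀ x, dg x = (x, x))
    (hdc : Continuous dg) (μ : ProbabilityMeasure X) (hμ : Tendsto law atTop (𝓝 μ)) :
    Tendsto law2 atTop (𝓝 (μ.map hdc.measurable.aemeasurable)) := by
  have hm : Measurable (fun q : X × X => ((q.1, q.1), q)) :=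
    (measurable_fst.prodMk measurable_fst).prodMk measurable_id
  refine slutsky (μ := fun i => (law i).map hdc.measurable.aemeasurable) (ν := law2)
    (π := fun i => (law2 i : Measure (X × X)).map (fun q => ((q.1, q.1), q))) ?_ ?_ ?_ ?_
  · intro i
    rw [Measure.map_map measurable_fst hm]
    show _ = (law i : Measure X).map dg
    rw [← hfst i, Measure.map_map hdc.measurable measurable_fst]
    congr 1
    funext q
    exact (hdg q.1).symm
  · intro i
    rw [Measure.map_map measurable_snd hm]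
    exact Measure.map_id
  · intro r hr
    have e : ∀ i, (law2 i : Measure (X × X)).map (fun q => ((q.1, q.1), q))
        {q | r < dist q.1 q.2} = (law2 i : Measure (X × X)) {q | r < dist q.1 q.2} := by
      intro i
      rw [Measure.map_apply hm (meas_far r)]
      congr 1
      ext q
      simp only [Set.mem_preimage, Set.mem_ofPred_eq]
      have : dist ((q.1, q.1) : X × X) q = dist q.1 q.2 := by
        rw [Prod.dist_eq]
        show max (dist q.1 q.1) (dist q.1 q.2) = dist q.1 q.2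
        rw [dist_self]
        exact max_eq_right dist_nonneg
      rw [this]
    simp only [e]
    have hlim : Tendsto (fun i => ENNReal.ofReal (C * Λ i * r ^ (-(5 / 4) : ℝ))) atTop (𝓝 0) := by
      have h1 : Tendsto (fun i => C * Λ i * r ^ (-(5 / 4) : ℝ)) atTop
          (𝓝 (C * 0 * r ^ (-(5 / 4) : ℝ))) := (hΛ.const_mul C).mul_const _
      rw [mul_zero, zero_mul] at h1
      have h2 := ENNReal.tendsto_ofReal h1
      rwa [ENNReal.ofReal_zero] at h2
    refine tendsto_of_tendsto_of_tendsto_of_le_of_le' tendsto_const_nhds hlim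
      (Eventually.of_forall fun i => by positivity) ?_
    filter_upwards [hP1] with i hi
    exact hi r hr
  · exact ProbabilityMeasure.tendsto_map_of_tendsto_of_continuous law μ hμ hdc

theorem bwd (law2 : ℕ → ProbabilityMeasure (X × X)) (f : X → ℝ)
    (hf : ∀ x y, |f x - f y| ≤ dist x y) (hb : ∀ x, |f x| ≤ 1) (c : ℝ) (hc : 0 < c)
    (hlow : ∀ᶠ i in atTop, c ≤ ∫ q, (f q.1 - f q.2) ^ 2 ∂(law2 i : Measure (X × X)))
    (dg : X → X × X) (hdg : ∀ x, dg x = (x, x))
    (hdc : Continuous dg) (μ : ProbabilityMeasure X)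
    (h : Tendsto law2 atTop (𝓝 (μ.map hdc.measurable.aemeasurable))) : False := by
  have hfc : Continuous f := by
    have : LipschitzWith 1 f := LipschitzWith.of_dist_le_mul fun x y => by
      rw [NNReal.coe_one, one_mul, Real.dist_eq]
      exact hf x y
    exact this.continuous
  have hgc : Continuous (fun q : X × X => (f q.1 - f q.2) ^ 2) :=
    ((hfc.comp continuous_fst).sub (hfc.comp continuous_snd)).pow 2
  let g : BoundedContinuousFunction (X × X) ℝ :=
    BoundedContinuousFunction.ofNormedAddCommGroup (fun q : X × X => (f q.1 - f q.2) ^ 2) hgc 4 (by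
      intro q
      rw [Real.norm_eq_abs, abs_of_nonneg (sq_nonneg _)]
      have h1 := abs_le.1 (hb q.1)
      have h2 := abs_le.1 (hb q.2)
      nlinarith)
  have h1 := (ProbabilityMeasure.tendsto_iff_forall_integral_tendsto.1 h) g
  have h2 : ∫ q, g q ∂((μ.map hdc.measurable.aemeasurable : ProbabilityMeasure (X × X)) :
      Measure (X × X)) = 0 := by
    show ∫ q, g q ∂((μ : Measure X).map dg) = 0
    rw [integral_map hdc.measurable.aemeasurable g.continuous.aestronglyMeasurable]
    have : ∀ x, g (dg x) = 0 := by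
      intro x
      rw [hdg]
      show (f x - f x) ^ 2 = 0
      ring
    simp only [this, integral_zero]
  rw [h2] at h1
  have h3 := h1.eventually (gt_mem_nhds hc)
  obtain ⟨i, hi1, hi2⟩ := (h3.and hlow).exists
  exact absurd (lt_of_le_of_lt hi2 hi1) (lt_irrefl _)

end abs

/-- The paths have the same limit iff the noise is small. -/
theorem main : S_TGT → S_P1 → S_P3 → S_INT → S_SQA := by
  intro hT h1 h3 hI R δ ε hδ hδ0
  have hΛ0 : ∀ i, 0 ≤ (ε i : ℝ) * (δ i) ^ (-(3 / 4) : ℝ) := fun i =>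
    mul_nonneg (ε i).2.1 (Real.rpow_nonneg (hδ i).le _)
  constructor
  · intro hΛ φ hφ μ hμ
    obtain ⟨C, δ1, hC, hδ1, hP⟩ := h1 R
    have hδφ : Tendsto (fun i => δ (φ i)) atTop (𝓝 0) := hδ0.comp hφ.tendsto_atTop
    refine fwd (fun i => law R (δ (φ i)) pc) (fun i => law2 R (δ (φ i)) (ε (φ i)))
      (fun i => (hI R (δ (φ i)) (ε (φ i))).2.2.1)
      (fun i => (ε (φ i) : ℝ) * (δ (φ i)) ^ (-(3 / 4) : ℝ)) C ?_ (hΛ.comp hφ.tendsto_atTop) dg
      (fun _ => rfl) dg_cont μ hμ
    filter_upwards [hδφ.eventually (ge_mem_nhds hδ1)] with i hi r hr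
    exact hP _ (hδ _) hi _ r hr
  · intro h
    by_contra hn
    obtain ⟨lam, hlam, hfr⟩ : ∃ lam : ℝ, 0 < lam ∧
        ∃ᶠ i in atTop, lam ≤ (ε i : ℝ) * (δ i) ^ (-(3 / 4) : ℝ) := by
      rw [Metric.tendsto_atTop'] at hn
      push Not at hn
      obtain ⟨lam, hlam, hN⟩ := hn
      refine ⟨lam, hlam, ?_⟩
      rw [frequently_atTop]
      intro a
      obtain ⟨b, hb, hb'⟩ := hN a
      refine ⟨b, hb.le, ?_⟩
      rw [Real.dist_eq, sub_zero, abs_of_nonneg (hΛ0 b)] at hb'
      exact hb'
    obtain ⟨φ, hφ, hφl⟩ := extraction_of_frequently_atTop hfr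
    obtain ⟨ψ, hψ, μ, hμ⟩ := hT R (fun i => δ (φ i)) (fun i => hδ _) (hδ0.comp hφ.tendsto_atTop)
    have h5 := h (fun i => φ (ψ i)) (hφ.comp hψ) μ hμ
    obtain ⟨f, hf, hb, c, C, δ1, hc, hC, hδ1, hP⟩ := h3 R
    have hδφ : Tendsto (fun i => δ (φ (ψ i))) atTop (𝓝 0) :=
      hδ0.comp (hφ.comp hψ).tendsto_atTop
    refine bwd (fun i => law2 R (δ (φ (ψ i))) (ε (φ (ψ i)))) f hf hb (c * min 1 lam)
      (mul_pos hc (lt_min one_pos hlam)) ?_ dg (fun _ => rfl) dg_cont μ h5
    filter_upwards [hδφ.eventually (ge_mem_nhds hδ1)] with i hi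
    refine le_trans ?_ (hP _ (hδ _) hi (ε (φ (ψ i)))).2
    exact mul_le_mul_of_nonneg_left (min_le_min le_rfl (hφl _)) hc.le

end Pool.Agent.N374.PN.SQA
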